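import Pool.Agent.Helper30_MWS.EDV

/-!
# Squad MWS, row SWV (helper28)
-/

set_option autoImplicit false

namespace Pool.Agent.MWS.H28

open Pool.Agent.Helper14_MV Pool.Agent.Helper2_MV Pool.Agent.MVO Pool.Agent.MWL Pool.Agent.MWS
open Pool.Agent.MWS.H30E

variable {k : ℕ}

/-- the letters `x`, `y` renamed `0`, `1` -/
def rn (x c : ℕ) : ℕ := if c = x then 0 else 1

/-- restriction to `x`, `y` and renaming -/
def rs (x y : ℕ) (B : ℕ → List ℕ) : ℕ → List ℕ := fun j => (r2 x y B j).map (rn x)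

theorem mem_r2 {x y : ℕ} {B : ℕ → List ℕ} {j c : ℕ} : c ∈ r2 x y B j ↔ c ∈ B j ∧ (c = x ∨ c = y) := by
  unfold r2
  rw [List.mem_filter, decide_eq_true_iff]

theorem rn_x (x : ℕ) : rn x x = 0 := if_pos rfl

theorem rn_y {x y : ℕ} (h : x ≠ y) : rn x y = 1 := if_neg (Ne.symm h)

theorem count_map_rn (x y : ℕ) (hxy : x ≠ y) (l : List ℕ) (hl : ∀ c ∈ l, c = x ∨ c = y) :
    (l.map (rn x)).count 0 = l.count x ∧ (l.map (rn x)).count 1 = l.count y := by
  induction l with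
  | nil => simp
  | cons a l ih =>
    obtain ⟨h0, h1⟩ := ih (fun c hc => hl c (List.mem_cons_of_mem _ hc))
    rw [List.map_cons, List.count_cons, List.count_cons, List.count_cons, List.count_cons, h0, h1]
    rcases hl a (by simp) with rfl | rfl
    · rw [rn_x]
      simp [hxy]
    · rw [rn_y hxy]
      simp [Ne.symm hxy]

theorem rs_ty {x y : ℕ} (hxy : x ≠ y) (B : ℕ → List ℕ) :
    ty (rs x y B) 0 = ty B x ∧ ty (rs x y B) 1 = ty B y := by
  have key : ∀ j, (∀ c ∈ r2 x y B j, c = x ∨ c = y) := fun j c hc => (mem_r2.1 hc).2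
  have cx : ∀ j, (r2 x y B j).count x = (B j).count x := by
    intro j
    unfold r2
    rw [List.count_filter (by simp)]
  have cy : ∀ j, (r2 x y B j).count y = (B j).count y := by
    intro j
    unfold r2
    rw [List.count_filter (by simp)]
  constructor
  · funext j
    unfold ty rs
    rw [(count_map_rn x y hxy _ (key j)).1, cx]
  · funext j
    unfold ty rs
    rw [(count_map_rn x y hxy _ (key j)).2, cy]

theorem rs_two {x y : ℕ} {B : ℕ → List ℕ} : Two01 k (rs x y B) := by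
  intro j _ c hc
  unfold rs at hc
  rw [List.mem_map] at hc
  obtain ⟨d, _, rfl⟩ := hc
  unfold rn
  split_ifs
  · exact Or.inl rfl
  · exact Or.inr rfl

theorem rs_ok {x y : ℕ} (hxy : x ≠ y) {B : ℕ → List ℕ} (hB : OkB k B) : OkB k (rs x y B) := by
  refine ⟨?_, ?_⟩
  · intro j hj c hc hs
    rcases rs_two (k := k) j hj c hc with rfl | rfl
    · exact absurd hs.1 (by omega)
    · exact absurd hs.1 (by omega)
  · intro j hj c hc
    have hc' := hc
    unfold rs at hc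
    rw [List.mem_map] at hc
    obtain ⟨d, hd, hdc⟩ := hc
    obtain ⟨hd1, hd2⟩ := mem_r2.1 hd
    have h1 := hB.ml j hj d hd1
    have h2 : (fun j => (rs x y B j).count c) = fun j => (B j).count d := by
      rcases hd2 with rfl | rfl
      · rw [rn_x] at hdc
        subst hdc
        exact (rs_ty hxy B).1
      · rw [rn_y hxy] at hdc
        subst hdc
        exact (rs_ty hxy B).2
    rw [h2]
    exact h1

theorem mem_rs {x y : ℕ} {B : ℕ → List ℕ} {j c : ℕ} :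
    c ∈ rs x y B j ↔ ∃ d, (d ∈ B j ∧ (d = x ∨ d = y)) ∧ rn x d = c := by
  unfold rs
  rw [List.mem_map]
  constructor
  · rintro ⟨d, hd, h⟩
    exact ⟨d, mem_r2.1 hd, h⟩
  · rintro ⟨d, hd, h⟩
    exact ⟨d, mem_r2.2 hd, h⟩

theorem rs_sml {x y : ℕ} {B B' : ℕ → List ℕ} (h : SmL k B B') : SmL k (rs x y B) (rs x y B') := by
  intro j hj c
  rw [mem_rs, mem_rs]
  constructor
  · rintro ⟨d, ⟨hd, hd2⟩, h3⟩
    exact ⟨d, ⟨(h j hj d).1 hd, hd2⟩, h3⟩
  · rintro ⟨d, ⟨hd, hd2⟩, h3⟩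
    exact ⟨d, ⟨(h j hj d).2 hd, hd2⟩, h3⟩

theorem rs_bef (hbfr : BfrStmt) {x y : ℕ} (hxy : x ≠ y) {B : ℕ → List ℕ} {i : ℕ} (hx : x ∈ B i)
    (hy : y ∈ B i) : Bef (rs x y B i) 0 1 ↔ Bef (B i) x y := by
  have h1 := hbfr.2 (r2 x y B i) (rn x) x y ?_ ?_ (mem_r2.2 ⟨hx, Or.inl rfl⟩)
    (mem_r2.2 ⟨hy, Or.inr rfl⟩)
  · rw [rn_x, rn_y hxy] at h1
    have h2 := hbfr.1 (B i) (fun c => decide (c = x ∨ c = y)) x y (by simp) (by simp)
    exact h1.trans h2
  · intro c hc h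
    rcases (mem_r2.1 hc).2 with rfl | rfl
    · rfl
    · rw [rn_x, rn_y hxy] at h
      exact absurd h (by omega)
  · intro c hc h
    rcases (mem_r2.1 hc).2 with rfl | rfl
    · rw [rn_x, rn_y hxy] at h
      exact absurd h (by omega)
    · rfl

theorem r2_blk {x y : ℕ} {B : ℕ → List ℕ} (hB : BlkOk k B) : BlkOk k (r2 x y B) :=
  fun j hj c hc => hB j hj c (mem_r2.1 hc).1

theorem rs_rr {θ : FIC} {x y : ℕ} {B B' : ℕ → List ℕ} (hB : BlkOk k B) (hB' : BlkOk k B')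
    (h : RR θ (asm k (r2 x y B)) (asm k (r2 x y B'))) :
    RR θ (asm k (rs x y B)) (asm k (rs x y B')) := by
  have := rr_sub θ (fun c => [rn x c]) (r2_blk hB) (r2_blk hB') h
  have e : ∀ l : List ℕ, l.flatMap (fun c => [rn x c]) = l.map (rn x) := by
    intro l
    induction l with
    | nil => rfl
    | cons a l ih => rw [List.flatMap_cons, ih]; rfl
  simp only [e] at this
  exact this

/-- row SWV -/
theorem swv (hbfr : BfrStmt) (hnfv : NfvStmt) (htwv : TwvStmt) : SwvStmt := by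
  intro V β hV hC θ hθ _ k B B' hB hB' hShp hr
  have hS := sml_of_shp hB hB' hShp
  refine hnfv V β θ hV hC hθ k B B' hB hB' hS ?_
  intro x y i hxy hv hd
  obtain ⟨hi, hx, hy⟩ := hV.mem _ _ _ _ hv
  have hx' : x ∈ B i := List.count_pos_iff.1 (Nat.pos_of_ne_zero hx)
  have hy' : y ∈ B i := List.count_pos_iff.1 (Nat.pos_of_ne_zero hy)
  have hx2 : x ∈ B' i := (hS i hi x).1 hx'
  have hy2 : y ∈ B' i := (hS i hi y).1 hy'
  have hrr := rs_rr hB.ok hB'.ok (hr x y (hB.ok i hi x hx') (hB.ok i hi y hy') hxy)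
  have hvC : V k (ty (rs x y B) 0) (ty (rs x y B) 1) i := by
    rw [(rs_ty hxy B).1, (rs_ty hxy B).2]
    exact hv
  have hS' : SmL k B' B := fun j hj c => (hS j hj c).symm
  by_cases hb : Bef (B i) x y
  · have hb' : ¬ Bef (B' i) x y := fun h => hd (iff_of_true hb h)
    have h3 := htwv V β θ hV hC hθ k _ _ (rs_ok hxy hB) (rs_ok hxy hB') rs_two rs_two
      (rs_sml hS) i hvC hrr ((rs_bef hbfr hxy hx' hy').2 hb)
      (fun h => hb' ((rs_bef hbfr hxy hx2 hy2).1 h))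
    rw [(rs_ty hxy B).1, (rs_ty hxy B).2] at h3
    exact h3
  · have hb' : Bef (B' i) x y := by
      by_contra h
      exact hd (iff_of_false hb h)
    have e1 : ∀ j ≤ k, (ty B x j = 0 ↔ ty B' x j = 0) ∧ (ty B y j = 0 ↔ ty B' y j = 0) :=
      fun j hj => ⟨sml_ty hS x j hj, sml_ty hS y j hj⟩
    have e2 : ∀ j ≤ k, (ty B' x j = 0 ↔ ty B x j = 0) ∧ (ty B' y j = 0 ↔ ty B y j = 0) :=
      fun j hj => ⟨sml_ty hS' x j hj, sml_ty hS' y j hj⟩
    have hvC' : V k (ty (rs x y B') 0) (ty (rs x y B') 1) i := by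
      rw [(rs_ty hxy B').1, (rs_ty hxy B').2]
      exact hV.ext k _ _ _ _ i e1 hv
    have h3 := htwv V β θ hV hC hθ k _ _ (rs_ok hxy hB') (rs_ok hxy hB) rs_two rs_two
      (rs_sml hS') i hvC' hrr.symm ((rs_bef hbfr hxy hx2 hy2).2 hb')
      (fun h => hb ((rs_bef hbfr hxy hx' hy').1 h))
    rw [(rs_ty hxy B').1, (rs_ty hxy B').2] at h3
    exact te_ext e2 h3

end Pool.Agent.MWS.H28
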