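import Pool.Agent.Helper39_MWS.CbLem

/-!
# Squad MWS, row TWV (helper28): a visible difference gives the edge
-/

set_option autoImplicit false

namespace Pool.Agent.MWS.H28

open Pool.Agent.Helper14_MV Pool.Agent.Helper2_MV Pool.Agent.MVO Pool.Agent.MWL Pool.Agent.MWS
open Pool.Agent.MWS.H39

variable {V : ℕ → (ℕ → ℕ) → (ℕ → ℕ) → ℕ → Prop} {β : FIC} {k i : ℕ} {a b : ℕ → ℕ}

/-- a two letter family is given by its letters and the two facts in block `i` -/
theorem canon (hnfv : NfvStmt) (hV : VisOk V) (hC : ClV V β) (hv : V k a b i)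
    {C : ℕ → List ℕ} (hCo : OkB k C) (hC2 : Two01 k C)
    (hm : ∀ j ≤ k, (0 ∈ C j ↔ a j ≠ 0) ∧ (1 ∈ C j ↔ b j ≠ 0)) {l : List ℕ} (hl : LL l)
    (h1 : Bef (C i) 0 1 ↔ Bef l 0 1) (h2 : Bef (C i) 1 0 ↔ Bef l 1 0) (e : ℕ → Bool) :
    RR β (asm k C) (asm k (cb a b e i l)) := by
  obtain ⟨hi, hai, hbi⟩ := hV.mem _ _ _ _ hv
  refine hnfv V β β hV hC (fic_le_refl β) k _ _ hCo (cb_ok hl hi) ?_ ?_
  · intro j hj c
    constructor
    · intro hc
      rcases hC2 j hj c hc with rfl | rfl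
      · rw [cb_mem0 hl hai]
        exact (hm j hj).1.1 hc
      · rw [cb_mem1 hl hbi]
        exact (hm j hj).2.1 hc
    · intro hc
      rcases cb_mem hl hc with rfl | rfl
      · rw [cb_mem0 hl hai] at hc
        exact (hm j hj).1.2 hc
      · rw [cb_mem1 hl hbi] at hc
        exact (hm j hj).2.2 hc
  · intro x y i' hxy h3 h4
    obtain ⟨rfl, h5⟩ := vis_two hV hv hC2 hm hxy h3
    rcases h5 with ⟨rfl, rfl⟩ | ⟨rfl, rfl⟩
    · exact absurd (by rw [cb_self]; exact h1) h4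
    · exact absurd (by rw [cb_self]; exact h2) h4

/-- insertion of a letter `0` in front of block `i` -/
def pr (i : ℕ) (B : ℕ → List ℕ) : ℕ → List ℕ :=
  fun j => (if j = i then [0] else []) ++ B j ++ []

theorem pr_self (B : ℕ → List ℕ) : pr i B i = 0 :: B i := by
  simp [pr]

theorem pr_mem (B : ℕ → List ℕ) (h0 : 0 ∈ B i) (j c : ℕ) : c ∈ pr i B j ↔ c ∈ B j := by
  unfold pr
  by_cases hj : j = i
  · subst hj
    simp only [if_true, List.append_nil, List.mem_append, List.mem_singleton]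
    constructor
    · rintro (rfl | h)
      · exact h0
      · exact h
    · exact Or.inr
  · simp [hj]

theorem pr_ok {B : ℕ → List ℕ} (hB : OkB k B) (h0 : 0 ∈ B i) : OkB k (pr i B) := by
  refine ⟨fun j hj c hc => hB.ok j hj c ((pr_mem B h0 j c).1 hc), fun j hj c hc => ?_⟩
  have h1 := hB.ml j hj c ((pr_mem B h0 j c).1 hc)
  refine le_trans h1 ?_
  unfold deg
  refine Finset.sum_le_sum fun m _ => ?_
  unfold pr
  rw [List.count_append, List.count_append]
  omega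

/-- row TWV -/
theorem twv (hnfv : NfvStmt) : TwvStmt := by
  intro V β θ hV hC hθ k B B' hB hB' h2 h2' hS i hv hr hb hb' e
  obtain ⟨hi, hai, hbi⟩ := hV.mem _ _ _ _ hv
  have h0 : 0 ∈ B i := by
    by_contra h
    exact hai (ty_zero.2 h)
  have h1 : 1 ∈ B i := by
    by_contra h
    exact hbi (ty_zero.2 h)
  have h0' : 0 ∈ B' i := (hS i hi 0).1 h0
  have h1' : 1 ∈ B' i := (hS i hi 1).1 h1
  have hm : ∀ j ≤ k, (0 ∈ B j ↔ ty B 0 j ≠ 0) ∧ (1 ∈ B j ↔ ty B 1 j ≠ 0) := by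
    intro j _
    rw [ne_eq, ne_eq, ty_zero, ty_zero, not_not, not_not]
    exact ⟨Iff.rfl, Iff.rfl⟩
  have hmC : ∀ j ≤ k, (0 ∈ pr i B j ↔ ty B 0 j ≠ 0) ∧ (1 ∈ pr i B j ↔ ty B 1 j ≠ 0) := by
    intro j hj
    rw [pr_mem B h0, pr_mem B h0]
    exact hm j hj
  have hmC' : ∀ j ≤ k, (0 ∈ pr i B' j ↔ ty B 0 j ≠ 0) ∧ (1 ∈ pr i B' j ↔ ty B 1 j ≠ 0) := by
    intro j hj
    rw [pr_mem B' h0', pr_mem B' h0', ← hS j hj 0, ← hS j hj 1]
    exact hm j hj
  have t : Two01 k (pr i B) := fun j hj c hc => h2 j hj c ((pr_mem B h0 j c).1 hc)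
  have t' : Two01 k (pr i B') := fun j hj c hc => h2' j hj c ((pr_mem B' h0' j c).1 hc)
  have hr1 : RR θ (asm k (pr i B)) (asm k (pr i B')) :=
    rr_ins' θ (fun j => if j = i then [0] else []) (fun _ => []) hB.ok hB'.ok hr
  have hbc : Bef (pr i B i) 0 1 := by
    rw [pr_self, show 0 :: B i = [0] ++ B i from rfl, bef_append]
    exact ⟨bef_of_not_mem (by simp), hb, Or.inl (by simp)⟩
  have hbc2 : ¬ Bef (pr i B i) 1 0 := by
    rw [pr_self, show 0 :: B i = [0] ++ B i from rfl, bef_append]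
    rintro ⟨-, -, h | h⟩
    · exact h (by simp)
    · exact h h1
  have hbc' : ¬ Bef (pr i B' i) 0 1 := by
    rw [pr_self, show 0 :: B' i = [0] ++ B' i from rfl, bef_append]
    exact fun h => hb' h.2.1
  have hbc2' : ¬ Bef (pr i B' i) 1 0 := by
    rw [pr_self, show 0 :: B' i = [0] ++ B' i from rfl, bef_append]
    rintro ⟨-, -, h | h⟩
    · exact h (by simp)
    · exact h h1'
  have c1 := canon hnfv hV hC hv (pr_ok hB h0) t hmC ll_a
    (iff_of_true hbc bef_a) (iff_of_false hbc2 bef_a') e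
  have c2 := canon hnfv hV hC hv (pr_ok hB' h0') t' hmC' ll_b
    (iff_of_false hbc' bef_b) (iff_of_false hbc2' bef_b') e
  exact θ.trans (hθ _ _ (RR.symm c1)) (θ.trans hr1 (hθ _ _ c2))

end Pool.Agent.MWS.H28
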